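import Mathlib

set_option autoImplicit false
open MeasureTheory
open scoped ENNReal NNReal BigOperators

namespace Pool.Agent.Results.MP_b09029_pr.InfluentialNotComparable

/-- The vertex set `ℤ^D ∩ [-2n, 2n]^D`. -/
abbrev Vtx (D n : ℕ) : Type :=
  Set.Icc (fun _ : Fin D => (-(2 * n) : ℤ)) (fun _ : Fin D => ((2 * n) : ℤ))

/-- The graph `G_n`: two vertices are adjacent iff their `ℓ¹` distance is `1`. -/
def G (D n : ℕ) : SimpleGraph (Vtx D n) where
  Adj x y := ∑ i, |x.1 i - y.1 i| = 1
  symm := ⟨fun x y h => by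
    rw [← h]
    exact Finset.sum_congr rfl fun i _ => abs_sub_comm _ _⟩
  loopless := ⟨fun x h => by simp at h⟩

/-- The edge set `W_n`. -/
abbrev W (D n : ℕ) : Type := (G D n).edgeSet

noncomputable instance (D n : ℕ) : Fintype (W D n) := Fintype.ofFinite _

/-- Configurations; the value `true` stands for the weight `a` and `false` for the weight `b`. -/
abbrev Conf (D n : ℕ) : Type := W D n → Bool

/-- The weight coded by a Boolean. -/
def wt (a b : ℝ) (c : Bool) : ℝ := if c = true then a else b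

/-- The product measure: the weight is `a` with probability `p` and `b` with probability `1 - p`. -/
noncomputable def Pr (D n : ℕ) (p : ℝ≥0) (hp : p ≤ 1) : Measure (Conf D n) :=
  Measure.pi fun _ => (PMF.bernoulli p hp).toMeasure

/-- The passage time of a walk. -/
def T {D n : ℕ} (a b : ℝ) {x y : Vtx D n} (γ : (G D n).Walk x y) (ω : Conf D n) : ℝ :=
  (γ.darts.map fun e => wt a b (ω ⟨e.edge, e.edge_mem⟩)).sum

/-- The minimal passage time over the paths from `x` to `y`. -/
noncomputable def f {D n : ℕ} (a b : ℝ) (x y : Vtx D n) (ω : Conf D n) : ℝ :=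
  ⨅ γ : (G D n).Path x y, T a b γ.1 ω

/-- A path is a geodesic if its passage time is minimal. -/
def IsGeodesic {D n : ℕ} (a b : ℝ) {x y : Vtx D n} (ω : Conf D n) (γ : (G D n).Path x y) : Prop :=
  T a b γ.1 ω = f a b x y ω

/-- `j` is essential: every geodesic passes through `j`. -/
def Ess {D n : ℕ} (a b : ℝ) (x y : Vtx D n) (j : W D n) : Set (Conf D n) :=
  {ω | ∀ γ : (G D n).Path x y, IsGeodesic a b ω γ → j.1 ∈ γ.1.edges}

/-- `j` is semi-essential: at least one geodesic passes through `j`. -/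
def SemiEss {D n : ℕ} (a b : ℝ) (x y : Vtx D n) (j : W D n) : Set (Conf D n) :=
  {ω | ∃ γ : (G D n).Path x y, IsGeodesic a b ω γ ∧ j.1 ∈ γ.1.edges}

open Classical in
/-- The discrete derivative `∂_j f`. -/
noncomputable def deriv {D n : ℕ} (a b : ℝ) (x y : Vtx D n) (j : W D n) (ω : Conf D n) : ℝ :=
  f a b x y (Function.update ω j false) - f a b x y (Function.update ω j true)

/-- `j` is influential: `∂_j f ≠ 0`. -/
def Infl {D n : ℕ} (a b : ℝ) (x y : Vtx D n) (j : W D n) : Set (Conf D n) :=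
  {ω | deriv a b x y j ω ≠ 0}

/-- `j` is very influential: `∂_j f = b - a`. -/
def VeryInfl {D n : ℕ} (a b : ℝ) (x y : Vtx D n) (j : W D n) : Set (Conf D n) :=
  {ω | deriv a b x y j ω = b - a}

/-- The three inequalities of the question, with constant `C`, for the edge `j` of `G_n` and the
passage time from `x` to `y`. -/
def Comparable {D n : ℕ} (a b : ℝ) (p : ℝ≥0) (hp : p ≤ 1) (x y : Vtx D n) (j : W D n)
    (C : ℝ≥0) : Prop :=
  Pr D n p hp (Infl a b x y j) ≤ C * Pr D n p hp (VeryInfl a b x y j) ∧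
  Pr D n p hp (SemiEss a b x y j) ≤ C * Pr D n p hp (Ess a b x y j) ∧
  Pr D n p hp (SemiEss a b x y j) ≤ C * Pr D n p hp (VeryInfl a b x y j)

/-- The vertex `A e₁ + B e₂` -/
def mk (d : ℕ) (A B : ℤ) : Fin (d + 2) → ℤ := fun i => if i = 0 then A else if i = 1 then B else 0

/-- The origin of `G_n`. -/
def org (d n : ℕ) : Vtx (d + 2) n := ⟨0, by
  constructor <;> intro i <;> simp⟩

/-- The vertex `n v` of `G_n` for `v = e₁`. -/
def fin1 (d n : ℕ) : Vtx (d + 2) n := ⟨(n : ℤ) • Pi.single 0 1, by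
  constructor <;> intro i <;> by_cases h : i = 0
  · subst h; simp; linarith
  · simp [h]
  · subst h; simp; linarith
  · simp [h]⟩

theorem mk_mem (d n : ℕ) (A B : ℤ) (hA : |A| ≤ 2 * n) (hB : |B| ≤ 2 * n) :
    mk d A B ∈ Set.Icc (fun _ : Fin (d + 2) => (-(2 * n) : ℤ)) (fun _ => ((2 * n) : ℤ)) := by
  rw [abs_le] at hA hB
  have hn : (0 : ℤ) ≤ n := by positivity
  constructor
  · intro i
    unfold mk
    dsimp only
    split_ifs
    · exact hA.1
    · exact hB.1
    · linarith
  · intro i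
    unfold mk
    dsimp only
    split_ifs
    · exact hA.2
    · exact hB.2
    · linarith

theorem mk_zero (d : ℕ) (A B : ℤ) : mk d A B 0 = A := by simp [mk]
theorem mk_one (d : ℕ) (A B : ℤ) : mk d A B 1 = B := by simp [mk]

theorem org_eq (d n : ℕ) : (org d n).1 = mk d 0 0 := by
  funext i
  simp [org, mk]

theorem fin1_eq (d n : ℕ) : (fin1 d n).1 = mk d n 0 := by
  funext i
  by_cases h : i = 0
  · subst h; simp [fin1, mk]
  · simp [fin1, mk, h]

theorem sum_two (d : ℕ) (g : Fin (d + 2) → ℤ) : ∑ i, g i = g 0 + g 1 + ∑ i : Fin d, g i.succ.succ := by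
  rw [Fin.sum_univ_succ, Fin.sum_univ_succ, add_assoc (g 0) (g 1)]
  rfl

theorem dist_mk (d : ℕ) (A B A' B' : ℤ) :
    ∑ i, |mk d A B i - mk d A' B' i| = |A - A'| + |B - B'| := by
  rw [sum_two]
  simp [mk, Fin.succ_succ_ne_one]

theorem adj_le {d n : ℕ} {x y : Vtx (d + 2) n} (h : (G (d + 2) n).Adj x y) :
    |x.1 0 - y.1 0| + |x.1 1 - y.1 1| ≤ 1 := by
  have h1 : ∑ i, |x.1 i - y.1 i| = 1 := h
  rw [sum_two] at h1
  have h2 : 0 ≤ ∑ i : Fin d, |x.1 i.succ.succ - y.1 i.succ.succ| :=
    Finset.sum_nonneg fun i _ => abs_nonneg _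
  linarith

theorem len_ge {d n : ℕ} {x y : Vtx (d + 2) n} (γ : (G (d + 2) n).Walk x y) :
    |x.1 0 - y.1 0| + |x.1 1 - y.1 1| ≤ γ.length := by
  induction γ with
  | nil => simp
  | cons h γ ih =>
    rename_i u v w
    have h1 := adj_le h
    rw [SimpleGraph.Walk.length_cons]
    push_cast
    have h2 : |u.1 0 - w.1 0| ≤ |u.1 0 - v.1 0| + |v.1 0 - w.1 0| := abs_sub_le _ _ _
    have h3 : |u.1 1 - w.1 1| ≤ |u.1 1 - v.1 1| + |v.1 1 - w.1 1| := abs_sub_le _ _ _
    linarith

theorem len_ge_via {d n : ℕ} {x y z : Vtx (d + 2) n} (γ : (G (d + 2) n).Walk x y)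
    (hz : z ∈ γ.support) :
    |x.1 0 - z.1 0| + |x.1 1 - z.1 1| + (|z.1 0 - y.1 0| + |z.1 1 - y.1 1|) ≤ γ.length := by
  classical
  have h1 := len_ge (γ.takeUntil z hz)
  have h2 := len_ge (γ.dropUntil z hz)
  have h3 : (γ.takeUntil z hz).length + (γ.dropUntil z hz).length = γ.length := by
    rw [← SimpleGraph.Walk.length_append, SimpleGraph.Walk.take_spec]
  have h4 : ((γ.takeUntil z hz).length : ℤ) + (γ.dropUntil z hz).length = γ.length := by
    exact_mod_cast h3
  linarith

section Weights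

variable {D n : ℕ} {a b : ℝ}

theorem wt_ge (hab : a < b) (c : Bool) : a ≤ wt a b c := by
  unfold wt; split_ifs <;> linarith

theorem wt_le (hab : a < b) (c : Bool) : wt a b c ≤ b := by
  unfold wt; split_ifs <;> linarith

theorem T_nonneg (ha : 0 < a) (hab : a < b) {x y : Vtx D n} (γ : (G D n).Walk x y)
    (ω : Conf D n) : 0 ≤ T a b γ ω := by
  unfold T
  refine List.sum_nonneg ?_
  intro t ht
  rw [List.mem_map] at ht
  obtain ⟨e, _, rfl⟩ := ht
  linarith [wt_ge hab (ω ⟨e.edge, e.edge_mem⟩)]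

theorem T_ge_len (hab : a < b) {x y : Vtx D n} (γ : (G D n).Walk x y)
    (ω : Conf D n) : a * γ.length ≤ T a b γ ω := by
  induction γ with
  | nil => simp [T]
  | cons h γ ih =>
    unfold T at *
    rw [SimpleGraph.Walk.darts_cons, List.map_cons, List.sum_cons, SimpleGraph.Walk.length_cons]
    push_cast
    have := wt_ge hab (ω ⟨(SimpleGraph.Dart.mk (_, _) h).edge, SimpleGraph.Dart.edge_mem _⟩)
    linarith

theorem T_le_len (hab : a < b) {x y : Vtx D n} (γ : (G D n).Walk x y)
    (ω : Conf D n) : T a b γ ω ≤ b * γ.length := by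
  induction γ with
  | nil => simp [T]
  | cons h γ ih =>
    unfold T at *
    rw [SimpleGraph.Walk.darts_cons, List.map_cons, List.sum_cons, SimpleGraph.Walk.length_cons]
    push_cast
    have := wt_le hab (ω ⟨(SimpleGraph.Dart.mk (_, _) h).edge, SimpleGraph.Dart.edge_mem _⟩)
    linarith

/-- a walk containing an edge of weight `b` -/
theorem T_ge_len' (hab : a < b) {x y : Vtx D n} (γ : (G D n).Walk x y)
    (ω : Conf D n) (h : ∃ e ∈ γ.darts, ω ⟨e.edge, e.edge_mem⟩ = false) :
    a * γ.length + (b - a) ≤ T a b γ ω := by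
  induction γ with
  | nil => simp at h
  | cons h' γ ih =>
    obtain ⟨e, he, hb⟩ := h
    rw [SimpleGraph.Walk.darts_cons, List.mem_cons] at he
    rcases he with he | he
    · have h1 := T_ge_len hab γ ω
      subst he
      unfold T at *
      rw [SimpleGraph.Walk.darts_cons, List.map_cons, List.sum_cons, SimpleGraph.Walk.length_cons,
        hb]
      push_cast
      have : wt a b false = b := rfl
      rw [this]
      linarith
    · have h1 := ih ⟨e, he, hb⟩
      unfold T at *
      rw [SimpleGraph.Walk.darts_cons, List.map_cons, List.sum_cons, SimpleGraph.Walk.length_cons]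
      push_cast
      have := wt_ge hab (ω ⟨(SimpleGraph.Dart.mk (_, _) h').edge, SimpleGraph.Dart.edge_mem _⟩)
      linarith

/-- a walk all of whose edges have weight `a` -/
theorem T_eq_len {x y : Vtx D n} (γ : (G D n).Walk x y)
    (ω : Conf D n) (h : ∀ e ∈ γ.darts, ω ⟨e.edge, e.edge_mem⟩ = true) :
    T a b γ ω = a * γ.length := by
  induction γ with
  | nil => simp [T]
  | cons h' γ ih =>
    have h1 := ih (fun e he => h e (by rw [SimpleGraph.Walk.darts_cons]; exact List.mem_cons_of_mem _ he))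
    have h2 := h _ (by rw [SimpleGraph.Walk.darts_cons]; exact List.mem_cons_self)
    unfold T at *
    rw [SimpleGraph.Walk.darts_cons, List.map_cons, List.sum_cons, SimpleGraph.Walk.length_cons, h2,
      h1]
    push_cast
    have : wt a b true = a := rfl
    rw [this]
    ring

/-- a walk all of whose edges changing the first coordinate have weight `b` -/
theorem T_ge_horizontal {d : ℕ} (ha : 0 < a) (hab : a < b) {x y : Vtx (d + 2) n}
    (γ : (G (d + 2) n).Walk x y) (ω : Conf (d + 2) n)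
    (h : ∀ e ∈ γ.darts, e.fst.1 0 ≠ e.snd.1 0 → ω ⟨e.edge, e.edge_mem⟩ = false) :
    b * (|x.1 0 - y.1 0| : ℤ) ≤ T a b γ ω := by
  induction γ with
  | nil => simp [T]
  | cons h' γ ih =>
    rename_i u v w
    have h1 := ih (fun e he => h e (by rw [SimpleGraph.Walk.darts_cons]; exact List.mem_cons_of_mem _ he))
    have h2 := h (SimpleGraph.Dart.mk (u, v) h')
      (by rw [SimpleGraph.Walk.darts_cons]; exact List.mem_cons_self)
    have h3 : b * (|u.1 0 - v.1 0| : ℤ) ≤ wt a b (ω ⟨(SimpleGraph.Dart.mk (u, v) h').edge,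
        SimpleGraph.Dart.edge_mem _⟩) := by
      by_cases he : u.1 0 = v.1 0
      · rw [he]
        simp only [sub_self, abs_zero, Int.cast_zero, mul_zero]
        linarith [wt_ge hab (ω ⟨(SimpleGraph.Dart.mk (u, v) h').edge, SimpleGraph.Dart.edge_mem _⟩)]
      · rw [h2 he]
        have h4 := adj_le h'
        have h5 : |u.1 0 - v.1 0| ≤ 1 := by linarith [abs_nonneg (u.1 1 - v.1 1)]
        have h6 : ((|u.1 0 - v.1 0| : ℤ) : ℝ) ≤ 1 := by exact_mod_cast h5
        have : wt a b false = b := rfl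
        rw [this]
        nlinarith
    have h7 : ((|u.1 0 - w.1 0| : ℤ) : ℝ) ≤ (|u.1 0 - v.1 0| : ℤ) + (|v.1 0 - w.1 0| : ℤ) := by
      exact_mod_cast abs_sub_le _ _ _
    unfold T at *
    rw [SimpleGraph.Walk.darts_cons, List.map_cons, List.sum_cons]
    have hb : 0 < b := by linarith
    nlinarith

end Weights

/-- a walk along a sequence of vertices -/
theorem walk_of_seq {D n : ℕ} (c : ℕ → Vtx D n) (k : ℕ)
    (h : ∀ t < k, (G D n).Adj (c t) (c (t + 1))) :
    ∃ γ : (G D n).Walk (c 0) (c k), γ.length = k ∧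
      ∀ e ∈ γ.darts, ∃ t < k, e.fst = c t ∧ e.snd = c (t + 1) := by
  induction k with
  | zero => exact ⟨SimpleGraph.Walk.nil, rfl, by simp⟩
  | succ k ih =>
    obtain ⟨γ, hl, hd⟩ := ih fun t ht => h t (by omega)
    refine ⟨γ.concat (h k (by omega)), ?_, ?_⟩
    · rw [SimpleGraph.Walk.length_concat, hl]
    · intro e he
      rw [SimpleGraph.Walk.darts_concat, List.concat_eq_append, List.mem_append,
        List.mem_singleton] at he
      rcases he with he | he
      · obtain ⟨t, ht, h1⟩ := hd e he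
        exact ⟨t, by omega, h1⟩
      · subst he
        exact ⟨k, by omega, rfl, rfl⟩

section Paths

variable {D n : ℕ} {a b : ℝ}

theorem finite_path (x y : Vtx D n) : Finite ((G D n).Path x y) := by
  classical
  refine Finite.of_injective
    (fun γ : (G D n).Path x y => (⟨γ.1.support, γ.2.support_nodup⟩ : {l : List (Vtx D n) // l.Nodup}))
    ?_
  intro γ γ' h
  simp only [Subtype.mk.injEq] at h
  exact Subtype.ext (SimpleGraph.Walk.ext_support h)

theorem f_le (ha : 0 < a) (hab : a < b) {x y : Vtx D n} (ω : Conf D n) (γ : (G D n).Path x y) :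
    f a b x y ω ≤ T a b γ.1 ω := by
  unfold f
  refine ciInf_le ⟨0, ?_⟩ γ
  rintro _ ⟨γ', rfl⟩
  exact T_nonneg ha hab _ _

theorem exists_geo {x y : Vtx D n} (ω : Conf D n) (h : Nonempty ((G D n).Path x y)) :
    ∃ γ : (G D n).Path x y, IsGeodesic a b ω γ := by
  have := finite_path x y
  exact exists_eq_ciInf_of_finite (f := fun γ : (G D n).Path x y => T a b γ.1 ω)

/-- loop erasure: a path with darts among those of the walk -/
theorem path_of_walk {x y : Vtx D n} (γ : (G D n).Walk x y) :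
    ∃ γ' : (G D n).Path x y, (∀ e ∈ γ'.1.darts, e ∈ γ.darts) ∧ γ'.1.length ≤ γ.length := by
  classical
  refine ⟨γ.toPath, ?_, ?_⟩
  · intro e he
    exact SimpleGraph.Walk.darts_toPath_subset γ he
  · exact SimpleGraph.Walk.length_bypass_le γ

open Classical in
theorem T_congr {x y : Vtx D n} (γ : (G D n).Walk x y) (ω ω' : Conf D n)
    (h : ∀ e ∈ γ.darts, ω ⟨e.edge, e.edge_mem⟩ = ω' ⟨e.edge, e.edge_mem⟩) :
    T a b γ ω = T a b γ ω' := by
  unfold T
  congr 1
  refine List.map_congr_left fun e he => ?_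
  rw [h e he]

theorem mem_edges_iff {x y : Vtx D n} (γ : (G D n).Walk x y) (j : W D n) :
    j.1 ∈ γ.edges ↔ ∃ e ∈ γ.darts, e.edge = j.1 := by
  unfold SimpleGraph.Walk.edges
  rw [List.mem_map]

end Paths

section Core

/-- the first leg of the detour -/
def legA (d m : ℕ) (x : Fin (d + 2) → ℤ) : Prop := ∃ i : ℤ, 0 ≤ i ∧ i ≤ m ∧ x = mk d 0 i
/-- the second leg of the detour -/
def legB (d n m : ℕ) (x : Fin (d + 2) → ℤ) : Prop := ∃ k : ℤ, 0 ≤ k ∧ k ≤ n ∧ x = mk d k m
/-- the third leg of the detour -/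
def legC (d n m : ℕ) (x : Fin (d + 2) → ℤ) : Prop := ∃ i : ℤ, 0 ≤ i ∧ i ≤ m ∧ x = mk d n i

/-- both in the same leg -/
def good (d n m : ℕ) (x y : Fin (d + 2) → ℤ) : Prop :=
  (legA d m x ∧ legA d m y) ∨ (legB d n m x ∧ legB d n m y) ∨ (legC d n m x ∧ legC d n m y)

theorem good_symm {d n m : ℕ} {x y : Fin (d + 2) → ℤ} (h : good d n m x y) : good d n m y x := by
  unfold good at *
  tauto

open Classical in
/-- the special configuration -/
noncomputable def ws (d n m : ℕ) : Conf (d + 2) n := fun e =>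
  decide (∃ x y : Vtx (d + 2) n, e.1 = s(x, y) ∧ good d n m x.1 y.1)

open Classical in
theorem ws_true_iff {d n m : ℕ} (e : (G (d + 2) n).Dart) :
    ws d n m ⟨e.edge, e.edge_mem⟩ = true ↔ good d n m e.fst.1 e.snd.1 := by
  unfold ws
  rw [decide_eq_true_iff]
  constructor
  · rintro ⟨x, y, h, hg⟩
    have h' : s(e.fst, e.snd) = s(x, y) := h
    rw [Sym2.eq_iff] at h'
    rcases h' with ⟨h1, h2⟩ | ⟨h1, h2⟩
    · rw [h1, h2]; exact hg
    · rw [h1, h2]; exact good_symm hg
  · intro h
    exact ⟨e.fst, e.snd, rfl, h⟩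

/-- a vertex of the box -/
def vx (d n : ℕ) (A B : ℤ) (hA : |A| ≤ 2 * n) (hB : |B| ≤ 2 * n) : Vtx (d + 2) n :=
  ⟨mk d A B, mk_mem d n A B hA hB⟩

variable {d n m : ℕ}

/-- the lower end of the special edge -/
def lo (d n m : ℕ) (hm : 1 ≤ m) (hmn : m ≤ 2 * n) : Vtx (d + 2) n :=
  vx d n 0 (m - 1) (by simp) (by
    rw [abs_le]
    have h1 : (1 : ℤ) ≤ m := by exact_mod_cast hm
    have h2 : (m : ℤ) ≤ 2 * n := by exact_mod_cast hmn
    constructor <;> linarith)

/-- the upper end of the special edge -/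
def up (d n m : ℕ) (hmn : m ≤ 2 * n) : Vtx (d + 2) n :=
  vx d n 0 m (by simp) (by
    rw [abs_le]
    have h2 : (m : ℤ) ≤ 2 * n := by exact_mod_cast hmn
    have h3 : (0 : ℤ) ≤ m := by positivity
    constructor <;> linarith)

theorem lo_up_adj (hm : 1 ≤ m) (hmn : m ≤ 2 * n) :
    (G (d + 2) n).Adj (lo d n m hm hmn) (up d n m hmn) := by
  show ∑ i, |mk d 0 (m - 1) i - mk d 0 m i| = 1
  rw [dist_mk]
  simp

/-- the special edge -/
def je (d n m : ℕ) (hm : 1 ≤ m) (hmn : m ≤ 2 * n) : W (d + 2) n :=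
  ⟨s(lo d n m hm hmn, up d n m hmn), lo_up_adj hm hmn⟩

theorem je_len (hm : 1 ≤ m) (hmn : m ≤ 2 * n)
    (γ : (G (d + 2) n).Walk (org d n) (fin1 d n)) (h : (je d n m hm hmn).1 ∈ γ.edges) :
    (n : ℤ) + 2 * m ≤ γ.length := by
  have h1 : up d n m hmn ∈ γ.support := γ.snd_mem_support_of_mem_edges h
  have h2 := len_ge_via γ h1
  rw [org_eq, fin1_eq] at h2
  have h3 : (up d n m hmn).1 = mk d 0 m := rfl
  rw [h3] at h2
  simp only [mk_zero, mk_one] at h2
  have h4 : (0 : ℤ) ≤ n := by positivity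
  have h5 : (0 : ℤ) ≤ m := by positivity
  simp only [sub_self, abs_zero, zero_sub, abs_neg, sub_zero, zero_add, abs_of_nonneg h4,
    abs_of_nonneg h5] at h2
  linarith

/-- walks on edges of weight `a` that avoid the special edge stay in the first leg -/
theorem stay (hn : 1 ≤ n) (hm : 1 ≤ m) (hmn : m ≤ 2 * n) {x y : Vtx (d + 2) n}
    (γ : (G (d + 2) n).Walk x y) (hx : ∃ i : ℤ, 0 ≤ i ∧ i ≤ m - 1 ∧ x.1 = mk d 0 i)
    (h1 : ∀ e ∈ γ.darts, good d n m e.fst.1 e.snd.1)
    (h2 : ∀ e ∈ γ.darts, e.edge ≠ (je d n m hm hmn).1) :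
    ∃ i : ℤ, 0 ≤ i ∧ i ≤ m - 1 ∧ y.1 = mk d 0 i := by
  induction γ with
  | nil => exact hx
  | cons h γ ih =>
    rename_i u v w
    refine ih ?_ (fun e he => h1 e (by rw [SimpleGraph.Walk.darts_cons]; exact List.mem_cons_of_mem _ he))
      (fun e he => h2 e (by rw [SimpleGraph.Walk.darts_cons]; exact List.mem_cons_of_mem _ he))
    have hg := h1 (SimpleGraph.Dart.mk (u, v) h)
      (by rw [SimpleGraph.Walk.darts_cons]; exact List.mem_cons_self)
    have hj := h2 (SimpleGraph.Dart.mk (u, v) h)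
      (by rw [SimpleGraph.Walk.darts_cons]; exact List.mem_cons_self)
    obtain ⟨i, hi0, hi1, hi⟩ := hx
    have hadj : |u.1 0 - v.1 0| + |u.1 1 - v.1 1| ≤ 1 := adj_le h
    rcases hg with ⟨_, ⟨k, hk0, hk1, hk⟩⟩ | ⟨⟨k, hk0, hk1, hk⟩, _⟩ | ⟨⟨k, hk0, hk1, hk⟩, _⟩
    · change v.1 = mk d 0 k at hk
      refine ⟨k, hk0, ?_, hk⟩
      by_contra hlt
      push Not at hlt
      have hkm : k = m := by linarith
      rw [hi, hk] at hadj
      simp only [mk_zero, mk_one, sub_self, abs_zero, zero_add] at hadj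
      rw [abs_le] at hadj
      have him : i = m - 1 := by linarith [hadj.1]
      apply hj
      show s(u, v) = s(lo d n m hm hmn, up d n m hmn)
      have e1 : u = lo d n m hm hmn := Subtype.ext (by rw [hi, him]; rfl)
      have e2 : v = up d n m hmn := Subtype.ext (by rw [hk, hkm]; rfl)
      rw [e1, e2]
    · exfalso
      change u.1 = mk d k m at hk
      have := congrFun (hi.symm.trans hk) 1
      rw [mk_one, mk_one] at this
      linarith
    · exfalso
      change u.1 = mk d n k at hk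
      have := congrFun (hi.symm.trans hk) 0
      rw [mk_zero, mk_zero] at this
      have h3 : (1 : ℤ) ≤ n := by exact_mod_cast hn
      linarith

/-- a walk that avoids the special edge uses an edge of weight `b` -/
theorem has_b (hn : 1 ≤ n) (hm : 1 ≤ m) (hmn : m ≤ 2 * n)
    (γ : (G (d + 2) n).Walk (org d n) (fin1 d n)) (h : (je d n m hm hmn).1 ∉ γ.edges) :
    ∃ e ∈ γ.darts, ws d n m ⟨e.edge, e.edge_mem⟩ = false := by
  by_contra hno
  push Not at hno
  have hm1 : (1 : ℤ) ≤ m := by exact_mod_cast hm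
  obtain ⟨i, _, _, hi⟩ := stay hn hm hmn γ ⟨0, le_rfl, by linarith, org_eq d n⟩
    (fun e he => by
      rw [← ws_true_iff]
      have := hno e he
      simpa using this)
    (fun e he heq => h ((mem_edges_iff γ _).mpr ⟨e, he, heq⟩))
  rw [fin1_eq] at hi
  have := congrFun hi 0
  rw [mk_zero, mk_zero] at this
  omega

/-- lower bound for walks avoiding the special edge -/
theorem lower {a b : ℝ} (ha : 0 < a) (hab : a < b) (hn : 1 ≤ n) (hm : 1 ≤ m) (hmn : m ≤ 2 * n)
    (γ : (G (d + 2) n).Walk (org d n) (fin1 d n)) (h : (je d n m hm hmn).1 ∉ γ.edges) :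
    min ((n : ℝ) * b) (((n : ℝ) + 2 * m) * a + (b - a)) ≤ T a b γ (ws d n m) := by
  by_cases H : ∃ e ∈ γ.darts, e.fst.1 0 ≠ e.snd.1 0 ∧ ws d n m ⟨e.edge, e.edge_mem⟩ = true
  · obtain ⟨e, he, hne, ht⟩ := H
    refine (min_le_right _ _).trans ?_
    have h1 := T_ge_len' hab γ (ws d n m) (has_b hn hm hmn γ h)
    have h2 : (n : ℤ) + 2 * m ≤ γ.length := by
      rw [ws_true_iff] at ht
      rcases ht with ⟨⟨k, _, _, hk⟩, ⟨k', _, _, hk'⟩⟩ | ⟨⟨k, hk0, hk1, hk⟩, _⟩ |
        ⟨⟨k, _, _, hk⟩, ⟨k', _, _, hk'⟩⟩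
      · exact absurd (by rw [hk, hk', mk_zero, mk_zero]) hne
      · have h3 : e.fst ∈ γ.support := γ.dart_fst_mem_support_of_mem_darts he
        have h4 := len_ge_via γ h3
        rw [org_eq, fin1_eq, hk] at h4
        simp only [mk_zero, mk_one] at h4
        have h5 : (0 : ℤ) ≤ m := by positivity
        have h6 : |k - (n : ℤ)| = n - k := by
          rw [abs_sub_comm, abs_of_nonneg (by linarith)]
        simp only [zero_sub, abs_neg, sub_zero, h6, abs_of_nonneg hk0, abs_of_nonneg h5] at h4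
        linarith
      · exact absurd (by rw [hk, hk', mk_zero, mk_zero]) hne
    have h3 : (n : ℝ) + 2 * m ≤ γ.length := by exact_mod_cast h2
    nlinarith
  · push Not at H
    refine (min_le_left _ _).trans ?_
    have h1 := T_ge_horizontal ha hab γ (ws d n m) (fun e he hne => by
      have := H e he hne
      simpa using this)
    rw [org_eq, fin1_eq, mk_zero, mk_zero] at h1
    have h2 : |(0 : ℤ) - (n : ℤ)| = n := by simp
    rw [h2] at h1
    push_cast at h1
    linarith

/-- the detour -/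
theorem detour (hmn : m ≤ 2 * n) :
    ∃ γ : (G (d + 2) n).Walk (org d n) (fin1 d n), γ.length = n + 2 * m ∧
      ∀ e ∈ γ.darts, ws d n m ⟨e.edge, e.edge_mem⟩ = true := by
  have hm2 : (m : ℤ) ≤ 2 * n := by exact_mod_cast hmn
  set c : ℕ → Vtx (d + 2) n := fun t =>
    vx d n (min (max ((t : ℤ) - m) 0) n) (max (min (min (t : ℤ) m) (n + 2 * m - t)) 0)
      (by rw [abs_eq_max_neg]; omega) (by rw [abs_eq_max_neg]; omega) with hc
  obtain ⟨γ, hl, hd⟩ := walk_of_seq c (n + 2 * m) (fun t ht => by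
    show ∑ i, |mk d _ _ i - mk d _ _ i| = 1
    rw [dist_mk, abs_eq_max_neg, abs_eq_max_neg]
    push_cast
    omega)
  have h0 : c 0 = org d n := by
    refine Subtype.ext ?_
    rw [org_eq]
    show mk d _ _ = _
    congr 1 <;> (try push_cast) <;> (try omega)
  have h1 : c (n + 2 * m) = fin1 d n := by
    refine Subtype.ext ?_
    rw [fin1_eq]
    show mk d _ _ = _
    congr 1 <;> (try push_cast) <;> (try omega)
  have hd' : ∀ e ∈ γ.darts, ws d n m ⟨e.edge, e.edge_mem⟩ = true := by
    intro e he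
    rw [ws_true_iff]
    obtain ⟨t, ht, h2, h3⟩ := hd e he
    rw [h2, h3]
    unfold good
    by_cases hA : t < m
    · left
      refine ⟨⟨t, by omega, by omega, ?_⟩, ⟨t + 1, by omega, by omega, ?_⟩⟩
      · show mk d _ _ = _
        congr 1 <;> (push_cast; omega)
      · show mk d _ _ = _
        congr 1 <;> (push_cast; omega)
    · by_cases hB : t < m + n
      · right; left
        refine ⟨⟨t - m, by omega, by omega, ?_⟩, ⟨t + 1 - m, by omega, by omega, ?_⟩⟩
        · show mk d _ _ = _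
          congr 1 <;> (push_cast; omega)
        · show mk d _ _ = _
          congr 1 <;> (push_cast; omega)
      · right; right
        refine ⟨⟨n + 2 * m - t, by omega, by omega, ?_⟩, ⟨n + 2 * m - (t + 1), by omega, by omega, ?_⟩⟩
        · show mk d _ _ = _
          congr 1 <;> (push_cast; omega)
        · show mk d _ _ = _
          congr 1 <;> (push_cast; omega)
  exact ⟨γ.copy h0 h1, by rw [SimpleGraph.Walk.length_copy, hl],
    fun e he => hd' e (by rwa [SimpleGraph.Walk.darts_copy] at he)⟩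

/-- the straight path -/
theorem straight (d n : ℕ) :
    ∃ γ : (G (d + 2) n).Walk (org d n) (fin1 d n), γ.length = n ∧
      ∀ e ∈ γ.darts, e.fst.1 1 = 0 ∧ e.snd.1 1 = 0 := by
  set c : ℕ → Vtx (d + 2) n := fun t =>
    vx d n (min (t : ℤ) n) 0
      (by rw [abs_eq_max_neg]; omega) (by simp) with hc
  obtain ⟨γ, hl, hd⟩ := walk_of_seq c n (fun t ht => by
    show ∑ i, |mk d _ _ i - mk d _ _ i| = 1
    rw [dist_mk, abs_eq_max_neg, abs_eq_max_neg]
    push_cast
    omega)
  have h0 : c 0 = org d n := by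
    refine Subtype.ext ?_
    rw [org_eq]
    show mk d _ _ = _
    congr 1 <;> (try push_cast) <;> (try omega)
  have h1 : c n = fin1 d n := by
    refine Subtype.ext ?_
    rw [fin1_eq]
    show mk d _ _ = _
    congr 1 <;> (try omega)
  have hd' : ∀ e ∈ γ.darts, e.fst.1 1 = 0 ∧ e.snd.1 1 = 0 := by
    intro e he
    obtain ⟨t, _, h2, h3⟩ := hd e he
    rw [h2, h3]
    exact ⟨mk_one d (min (t : ℤ) n) 0, mk_one d (min ((t + 1 : ℕ) : ℤ) n) 0⟩
  exact ⟨γ.copy h0 h1, by rw [SimpleGraph.Walk.length_copy, hl],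
    fun e he => hd' e (by rwa [SimpleGraph.Walk.darts_copy] at he)⟩

/-- probability of a nonempty event -/
theorem Pr_pos (D n : ℕ) (p : ℝ≥0) (hp0 : 0 < p) (hp1 : p < 1) (S : Set (Conf D n))
    (ω : Conf D n) (h : ω ∈ S) : 0 < Pr D n p hp1.le S := by
  refine lt_of_lt_of_le ?_ (measure_mono (Set.singleton_subset_iff.mpr h))
  unfold Pr
  rw [Measure.pi_singleton]
  rw [pos_iff_ne_zero, Finset.prod_ne_zero_iff]
  intro e _
  rw [PMF.toMeasure_apply_singleton _ _ (MeasurableSet.singleton _), PMF.bernoulli_apply]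
  cases ω e
  · simp only [Bool.cond_false, ne_eq]
    have : (1 : ℝ≥0) - p ≠ 0 := by
      rw [ne_eq, tsub_eq_zero_iff_le, not_le]
      exact hp1
    exact_mod_cast this
  · simp only [Bool.cond_true, ne_eq]
    exact_mod_cast hp0.ne'

theorem core {a b : ℝ} (ha : 0 < a) (hab : a < b) (p : ℝ≥0) (hp0 : 0 < p) (hp1 : p < 1)
    (hn : 1 ≤ n) (hm : 1 ≤ m) (hmn : m ≤ 2 * n)
    (h1 : 2 * a * m ≤ n * (b - a)) (h2 : ((n : ℝ) - 1) * (b - a) < 2 * a * m) (C : ℝ≥0) :
    ¬ Comparable a b p hp1.le (org d n) (fin1 d n) (je d n m hm hmn) C := by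
  classical
  set j := je d n m hm hmn with hj
  obtain ⟨γs, hls, hds⟩ := straight d n
  obtain ⟨σ, hσd, hσl⟩ := path_of_walk γs
  obtain ⟨γd, hld, hdd⟩ := detour (d := d) (n := n) (m := m) hmn
  obtain ⟨δ, hδd, hδl⟩ := path_of_walk γd
  have hne : Nonempty ((G (d + 2) n).Path (org d n) (fin1 d n)) := ⟨σ⟩
  -- the straight path avoids the edge
  have hσj : j.1 ∉ σ.1.edges := by
    intro h
    obtain ⟨e, he, heq⟩ := (mem_edges_iff _ _).mp h
    have h3 := hds e (hσd e he)
    have h4 : s(e.fst, e.snd) = s(lo d n m hm hmn, up d n m hmn) := heq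
    have h5 : (up d n m hmn).1 1 = m := mk_one d 0 m
    have h6 : (1 : ℤ) ≤ m := by exact_mod_cast hm
    rw [Sym2.eq_iff] at h4
    rcases h4 with ⟨_, h7⟩ | ⟨h7, _⟩
    · rw [h7] at h3
      have := h3.2
      rw [h5] at this
      linarith
    · rw [h7] at h3
      have := h3.1
      rw [h5] at this
      linarith
  have hb : 0 < b := by linarith
  have hσT : ∀ ω, T a b σ.1 ω ≤ n * b := by
    intro ω
    refine (T_le_len hab _ _).trans ?_
    have : (σ.1.length : ℝ) ≤ n := by
      have := hσl.trans hls.le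
      exact_mod_cast this
    nlinarith
  have hfT : ∀ ω, f a b (org d n) (fin1 d n) ω ≤ n * b := fun ω => (f_le ha hab ω σ).trans (hσT ω)
  -- lower bound through the edge
  have hthr : ∀ (γ : (G (d + 2) n).Path (org d n) (fin1 d n)) (ω : Conf (d + 2) n),
      j.1 ∈ γ.1.edges → ((n : ℝ) + 2 * m) * a ≤ T a b γ.1 ω := by
    intro γ ω hγ
    have h3 := je_len hm hmn γ.1 hγ
    have h4 : (n : ℝ) + 2 * m ≤ γ.1.length := by exact_mod_cast h3
    have h5 := T_ge_len hab γ.1 ω
    nlinarith
  -- the detour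
  have hδT : T a b δ.1 (ws d n m) ≤ ((n : ℝ) + 2 * m) * a := by
    rw [T_eq_len δ.1 (ws d n m) (fun e he => hdd e (hδd e he))]
    have : (δ.1.length : ℝ) ≤ n + 2 * m := by
      have := hδl.trans hld.le
      exact_mod_cast this
    nlinarith
  have hδj : j.1 ∈ δ.1.edges := by
    by_contra h
    obtain ⟨e, he, heq⟩ := has_b hn hm hmn δ.1 h
    rw [hdd e (hδd e he)] at heq
    simp at heq
  -- update outside
  have hupd : ∀ (γ : (G (d + 2) n).Path (org d n) (fin1 d n)) (ω : Conf (d + 2) n) (c : Bool),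
      j.1 ∉ γ.1.edges → T a b γ.1 (Function.update ω j c) = T a b γ.1 ω := by
    intro γ ω c hγ
    refine T_congr _ _ _ fun e he => ?_
    rw [Function.update_of_ne]
    intro heq
    exact hγ ((mem_edges_iff _ _).mpr ⟨e, he, congrArg Subtype.val heq⟩)
  -- through the edge with weight b
  have hthr' : ∀ (γ : (G (d + 2) n).Path (org d n) (fin1 d n)) (ω : Conf (d + 2) n),
      j.1 ∈ γ.1.edges → ((n : ℝ) + 2 * m) * a + (b - a) ≤ T a b γ.1 (Function.update ω j false) := by
    intro γ ω hγ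
    have h3 := je_len hm hmn γ.1 hγ
    have h4 : (n : ℝ) + 2 * m ≤ γ.1.length := by exact_mod_cast h3
    obtain ⟨e, he, heq⟩ := (mem_edges_iff _ _).mp hγ
    have h5 := T_ge_len' hab γ.1 (Function.update ω j false) ⟨e, he, by
      have : (⟨e.edge, e.edge_mem⟩ : W (d + 2) n) = j := Subtype.ext heq
      rw [this, Function.update_self]⟩
    nlinarith
  have hwsj : ws d n m j = true := by
    obtain ⟨e, he, heq⟩ := (mem_edges_iff _ _).mp hδj
    have h3 := hdd e (hδd e he)
    have : (⟨e.edge, e.edge_mem⟩ : W (d + 2) n) = j := Subtype.ext heq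
    rwa [this] at h3
  have hupdt : Function.update (ws d n m) j true = ws d n m := by
    rw [← hwsj, Function.update_eq_self]
  rintro ⟨hc1, hc2, _⟩
  rcases h1.lt_or_eq with h1' | h1'
  · -- influential, never very influential
    have hI : ws d n m ∈ Infl a b (org d n) (fin1 d n) j := by
      show deriv a b (org d n) (fin1 d n) j (ws d n m) ≠ 0
      have e1 : f a b (org d n) (fin1 d n) (Function.update (ws d n m) j true)
          ≤ ((n : ℝ) + 2 * m) * a := by
        rw [hupdt]
        exact (f_le ha hab _ δ).trans hδT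
      have e2 : ((n : ℝ) + 2 * m) * a
          < f a b (org d n) (fin1 d n) (Function.update (ws d n m) j false) := by
        obtain ⟨γ, hγ⟩ := exists_geo (a := a) (b := b) (Function.update (ws d n m) j false) hne
        unfold IsGeodesic at hγ
        rw [← hγ]
        by_cases hjγ : j.1 ∈ γ.1.edges
        · have := hthr' γ (ws d n m) hjγ
          linarith
        · rw [hupd γ _ _ hjγ]
          refine lt_of_lt_of_le ?_ (lower ha hab hn hm hmn γ.1 hjγ)
          rw [lt_min_iff]
          constructor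
          · nlinarith
          · linarith
      have e3 : deriv a b (org d n) (fin1 d n) j (ws d n m)
          = f a b (org d n) (fin1 d n) (Function.update (ws d n m) j false)
            - f a b (org d n) (fin1 d n) (Function.update (ws d n m) j true) := rfl
      rw [e3]
      intro h0
      linarith
    have hV : VeryInfl a b (org d n) (fin1 d n) j = ∅ := by
      rw [Set.eq_empty_iff_forall_notMem]
      intro ω hω
      have hω' : f a b (org d n) (fin1 d n) (Function.update ω j false)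
            - f a b (org d n) (fin1 d n) (Function.update ω j true) = b - a := hω
      obtain ⟨γ, hγ⟩ := exists_geo (a := a) (b := b) (Function.update ω j true) hne
      unfold IsGeodesic at hγ
      by_cases hjγ : j.1 ∈ γ.1.edges
      · have e1 := hthr γ (Function.update ω j true) hjγ
        have e2 := hfT (Function.update ω j false)
        nlinarith
      · have e1 := f_le ha hab (Function.update ω j false) γ
        rw [hupd γ _ _ hjγ, ← hupd γ ω true hjγ, hγ] at e1
        linarith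
    have := Pr_pos (d + 2) n p hp0 hp1 _ _ hI
    rw [hV, measure_empty, mul_zero] at hc1
    exact absurd hc1 (not_le.mpr this)
  · -- semi-essential, never essential
    have hS : ws d n m ∈ SemiEss a b (org d n) (fin1 d n) j := by
      refine ⟨δ, ?_, hδj⟩
      unfold IsGeodesic
      refine le_antisymm ?_ (f_le ha hab _ δ)
      obtain ⟨γ, hγ⟩ := exists_geo (a := a) (b := b) (ws d n m) hne
      unfold IsGeodesic at hγ
      rw [← hγ]
      refine hδT.trans ?_
      by_cases hjγ : j.1 ∈ γ.1.edges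
      · exact hthr γ _ hjγ
      · refine le_trans ?_ (lower ha hab hn hm hmn γ.1 hjγ)
        rw [le_min_iff]
        constructor
        · nlinarith
        · linarith
    have hE : Ess a b (org d n) (fin1 d n) j = ∅ := by
      rw [Set.eq_empty_iff_forall_notMem]
      intro ω hω
      obtain ⟨γ, hγ⟩ := exists_geo (a := a) (b := b) ω hne
      have e1 := hthr γ ω (hω γ hγ)
      unfold IsGeodesic at hγ
      rw [hγ] at e1
      have e2 := hσT ω
      have e3 := f_le ha hab ω σ
      have e4 : T a b σ.1 ω = f a b (org d n) (fin1 d n) ω := by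
        refine le_antisymm ?_ e3
        nlinarith
      exact hσj (hω σ e4)
    have := Pr_pos (d + 2) n p hp0 hp1 _ _ hS
    rw [hE, measure_empty, mul_zero] at hc2
    exact absurd hc2 (not_le.mpr this)

end Core

/-- For every dimension at least two, all weights `0 < a < b`, every `p` and `v = e₁` there are a
single `n` and a single edge `j` of `G_n` for which the three inequalities fail together for every
constant `C`. If `b ≤ 5 a` there are infinitely many such `n`. -/
theorem result (d : ℕ) (a b : ℝ) (ha : 0 < a) (hab : a < b) (p : ℝ≥0) (hp0 : 0 < p) (hp1 : p < 1) :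
    (∃ n : ℕ, 1 ≤ n ∧ ∃ j : W (d + 2) n, ∀ C : ℝ≥0,
      ¬ Comparable a b p hp1.le (org d n) (fin1 d n) j C) ∧
    (b ≤ 5 * a → ∀ N : ℕ, ∃ n : ℕ, N ≤ n ∧ 1 ≤ n ∧ ∃ j : W (d + 2) n, ∀ C : ℝ≥0,
      ¬ Comparable a b p hp1.le (org d n) (fin1 d n) j C) := by
  have hba : 0 < b - a := by linarith
  have key : ∀ m : ℕ, 1 ≤ m → m ≤ 2 * ⌈2 * a * m / (b - a)⌉₊ → 1 ≤ ⌈2 * a * m / (b - a)⌉₊ ∧
      ∃ j : W (d + 2) ⌈2 * a * m / (b - a)⌉₊, ∀ C : ℝ≥0,
      ¬ Comparable a b p hp1.le (org d _) (fin1 d _) j C := by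
    intro m hm hmn
    have hn : 1 ≤ ⌈2 * a * m / (b - a)⌉₊ := by omega
    refine ⟨hn, je d _ m hm hmn, fun C => core ha hab p hp0 hp1 hn hm hmn ?_ ?_ C⟩
    · have := Nat.le_ceil (2 * a * m / (b - a))
      rwa [div_le_iff₀ hba] at this
    · have h0 : 0 ≤ 2 * a * m / (b - a) := by positivity
      have := Nat.ceil_lt_add_one h0
      rw [← lt_div_iff₀ hba]
      linarith
  constructor
  · have h1 : 1 ≤ 2 * ⌈2 * a * (1 : ℕ) / (b - a)⌉₊ := by
      have : 0 < ⌈2 * a * (1 : ℕ) / (b - a)⌉₊ := Nat.ceil_pos.mpr (by positivity)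
      omega
    obtain ⟨h2, h3⟩ := key 1 le_rfl h1
    exact ⟨_, h2, h3⟩
  · intro h5 N
    have h1 : ((N + 1 : ℕ) : ℝ) ≤ 2 * a * (2 * (N + 1) : ℕ) / (b - a) := by
      rw [le_div_iff₀ hba]
      push_cast
      nlinarith
    have h2 : N + 1 ≤ ⌈2 * a * (2 * (N + 1) : ℕ) / (b - a)⌉₊ := by
      have := h1.trans (Nat.le_ceil _)
      exact_mod_cast this
    obtain ⟨h3, h4⟩ := key (2 * (N + 1)) (by omega) (by omega)
    exact ⟨_, by omega, h3, h4⟩

end Pool.Agent.Results.MP_b09029_pr.InfluentialNotComparable
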